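import Pool.Agent.W538.Sign.Comp

/-!
# The conjecture `C⁺` for different Weil cohomology theories

Let `X` be a smooth proper variety and let `W₀` be a Weil cohomology theory for which the projector
onto the even cohomology of `X` is algebraic (with rational coefficients). Then the sum of the even
Betti numbers and the sum of the odd Betti numbers of `X` in any other Weil cohomology theory `W`
exceed those of `W₀` by the same natural number `c`, and the even projector of `W` is algebraic if
and only if `c = 0`; moreover one cycle induces the even projectors of all theories with `c = 0`.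
-/

open Pool.Agent.H914 Pool.Agent.H914.VarClass Pool.Agent.H447 Pool.Agent.W538.Sign

universe u v

namespace Pool.Agent.Results.MP_fd35e1_ag.SignBettiComparison

/-- If `C⁺(X)` holds for the Weil cohomology theory `W₀`, then one algebraic cycle induces the even
projectors of all Weil cohomology theories with the same sum of the even Betti numbers of `X`; in
any theory `W` the sums of the even and of the odd Betti numbers of `X` exceed those of `W₀` by the
same `c ≥ 0`, and `C⁺(X)` holds for `W` if and only if `c = 0`. -/
theorem result {k : Type u} [Field k] {𝒱 : VarClass k} {ops : CycleOps 𝒱} (X : 𝒱.Obj)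
    (W₀ : WeilCohomology.{u, v} ops) (h₀ : SignStd W₀ X) :
    (∃ z, (X.prod X).IsCyc X.dim z ∧ ∀ W : WeilCohomology.{u, v} ops,
      evenBetti W X = evenBetti W₀ X → InducesEven W X z) ∧
    ∀ W : WeilCohomology.{u, v} ops, ∃ c : ℕ, evenBetti W X = evenBetti W₀ X + c ∧
      oddBetti W X = oddBetti W₀ X + c ∧ (SignStd W X ↔ c = 0) :=
  main W₀ h₀

end Pool.Agent.Results.MP_fd35e1_ag.SignBettiComparison
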